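import Mathlib
import Pool.Agent.H46.SQ.Targets

/-! Targets `COUNT` and `NTH` for MP_04ff0f_nt. -/

set_option autoImplicit false

namespace Pool.Agent.H87.SR

open Pool.Agent.H46.SQ

theorem sr_COUNT (hSIEVE : T_SIEVE) : T_COUNT := by
  refine ⟨5216, by norm_num, ?_⟩
  intro x hx
  have hx1 : (1:ℝ) < x := by exact_mod_cast (by omega : 1 < x)
  have hx0 : (0:ℝ) < x := by linarith
  obtain ⟨y, hy⟩ : ∃ y : ℝ, y = (x:ℝ)^((1:ℝ)/24) := ⟨_, rfl⟩
  have hy1 : 1 < y := by rw [hy]; exact Real.one_lt_rpow hx1 (by norm_num)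
  have hy0 : 0 < y := by linarith
  have hy24 : y^24 = x := by
    rw [hy, ← Real.rpow_natCast, ← Real.rpow_mul hx0.le]; norm_num
  obtain ⟨z, hz⟩ : ∃ z : ℕ, z = ⌊y⌋₊ := ⟨_, rfl⟩
  have hz1 : 1 ≤ z := by
    rw [hz]
    exact Nat.le_floor (by simpa using hy1.le)
  have hzy : (z:ℝ) ≤ y := by rw [hz]; exact Nat.floor_le hy0.le
  have hyz : y < z + 1 := by rw [hz]; exact Nat.lt_floor_add_one y
  have hlogx : 0 < Real.log x := Real.log_pos hx1
  have hlogxy : Real.log x = 24 * Real.log y := by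
    rw [← hy24, Real.log_pow]; norm_num
  have hlogy : 0 < Real.log y := Real.log_pos hy1
  have hlogz : Real.log y ≤ Real.log (z+1) := Real.log_le_log hy0 hyz.le
  have hs := hSIEVE (z*z+1) x z hz1 (by omega)
  have hcard : ((Finset.Icc 1 x).filter (fun n => n.Prime ∧ (n^2-2).Prime)).card ≤
      z*z + ((Finset.Ico (z*z+1) (z*z+1+x)).filter (fun n => n.Prime ∧ (n^2-2).Prime)).card := by
    have hsub : (Finset.Icc 1 x).filter (fun n => n.Prime ∧ (n^2-2).Prime) ⊆
        Finset.Icc 1 (z*z) ∪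
          (Finset.Ico (z*z+1) (z*z+1+x)).filter (fun n => n.Prime ∧ (n^2-2).Prime) := by
      intro n hn
      simp only [Finset.mem_filter, Finset.mem_Icc, Finset.mem_union, Finset.mem_Ico] at hn ⊢
      by_cases h : n ≤ z*z
      · left; exact ⟨hn.1.1, h⟩
      · right; exact ⟨⟨by omega, by omega⟩, hn.2⟩
    refine (Finset.card_le_card hsub).trans ((Finset.card_union_le _ _).trans ?_)
    simp
  have hcard' : ((((Finset.Icc 1 x).filter (fun n => n.Prime ∧ (n^2-2).Prime)).card : ℝ)) ≤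
      (z:ℝ)*z + (((Finset.Ico (z*z+1) (z*z+1+x)).filter
        (fun n => n.Prime ∧ (n^2-2).Prime)).card : ℝ) := by
    exact_mod_cast hcard
  have hz1' : (1:ℝ) ≤ z := by exact_mod_cast hz1
  have hzz : (z:ℝ)*z ≤ (z:ℝ)^12 := by
    calc (z:ℝ)*z = (z:ℝ)^2 := by ring
      _ ≤ (z:ℝ)^12 := pow_le_pow_right₀ hz1' (by norm_num)
  have hz12 : (z:ℝ)^12 ≤ y^12 := pow_le_pow_left₀ (by linarith) hzy 12
  have hy12 : y^12 * (Real.log x)^2 ≤ 16 * x := by
    have h1 : Real.log x ≤ 4 * y^6 := by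
      have h2 : Real.log (y^6) ≤ y^6 - 1 := Real.log_le_sub_one_of_pos (by positivity)
      have h3 : Real.log (y^6) = 6 * Real.log y := by rw [Real.log_pow]; norm_num
      linarith
    have h4 : (Real.log x)^2 ≤ (4 * y^6)^2 := pow_le_pow_left₀ hlogx.le h1 2
    calc y^12 * (Real.log x)^2 ≤ y^12 * (4 * y^6)^2 := by gcongr
      _ = 16 * y^24 := by ring
      _ = 16 * x := by rw [hy24]
  have hL2 : 0 < (Real.log x)^2 := by positivity
  have hmain : 9 * (x:ℝ) / (Real.log (z + 1)) ^ 2 ≤ 5184 * x / (Real.log x)^2 := by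
    have h1 : (Real.log y)^2 ≤ (Real.log (z+1))^2 := pow_le_pow_left₀ hlogy.le hlogz 2
    have h2 : 0 < (Real.log y)^2 := by positivity
    calc 9 * (x:ℝ) / (Real.log (z + 1)) ^ 2 ≤ 9 * x / (Real.log y)^2 := by gcongr
      _ = 5184 * x / (Real.log x)^2 := by
        rw [hlogxy]
        field_simp
        norm_num
  have hy12' : y^12 ≤ 16 * x / (Real.log x)^2 := by
    rw [le_div_iff₀ hL2]; exact hy12
  have hfin : 5216 * (x:ℝ) / (Real.log x)^2 =
      5184 * x / (Real.log x)^2 + 2 * (16 * x / (Real.log x)^2) := by ring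
  rw [hfin]
  linarith

/-- Chebyshev (copied from `Pool.Agent.H36.GF.ELL`) -/
lemma pi_lower {Q : ℕ} (hQ : 4 ≤ Q) : (Q : ℝ) / 4 ≤ Real.log Q * Nat.primeCounting Q := by
  have h1 := Chebyshev.pi_ge Q
  have hQ' : (4 : ℝ) ≤ Q := by exact_mod_cast hQ
  have hlog : 0 < Real.log Q := Real.log_pos (by linarith)
  rw [div_le_iff₀ hlog] at h1
  have h2 : Real.log (Q + 1) ≤ 0.84 + 0.2 * Q := by
    have e : ((Q : ℝ) + 1) = 5 * ((Q + 1) / 5) := by ring
    rw [e, Real.log_mul (by norm_num) (by positivity)]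
    have h3 := Real.log_le_sub_one_of_pos (show (0 : ℝ) < (Q + 1) / 5 by positivity)
    have h4 : Real.log 5 ≤ 1.64 := by
      have h5 : Real.log 5 = Real.log (5 / 4) + 2 * Real.log 2 := by
        rw [show (5 : ℝ) = 5 / 4 * (2 * 2) by norm_num, Real.log_mul (by norm_num) (by norm_num),
          Real.log_mul (by norm_num) (by norm_num)]
        norm_num
        ring
      have h6 := Real.log_le_sub_one_of_pos (show (0 : ℝ) < 5 / 4 by norm_num)
      have := Real.log_two_lt_d9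
      rw [h5]
      linarith
    linarith
  have := Real.log_two_gt_d9
  nlinarith

theorem sr_NTH : T_NTH := by
  refine ⟨32, by norm_num, ?_⟩
  intro N hN
  unfold pp
  set p : ℕ := Nat.nth Nat.Prime (N - 1) with hp
  have hpi : Nat.primeCounting p = N := by
    have h := Nat.count_nth_succ_of_infinite Nat.infinite_setOfPred_prime (N-1)
    have h2 : Nat.primeCounting p = Nat.count Nat.Prime (p + 1) := rfl
    rw [h2, hp, h]; omega
  have hN' : (2:ℝ) ≤ N := by exact_mod_cast hN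
  have hlog2 := Real.log_two_gt_d9
  have hlogN : Real.log 2 ≤ Real.log N := Real.log_le_log (by norm_num) hN'
  by_cases h4 : 4 ≤ p
  · have h1 := pi_lower h4
    rw [hpi] at h1
    have hp4 : (4:ℝ) ≤ p := by exact_mod_cast h4
    have hp0 : (0:ℝ) < p := by linarith
    have hsq : Real.sqrt p * Real.sqrt p = p := Real.mul_self_sqrt hp0.le
    have hs0 : 0 < Real.sqrt p := Real.sqrt_pos.2 hp0
    have hl : Real.log p = 2 * Real.log (Real.sqrt p) := by
      rw [Real.log_sqrt hp0.le]; ring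
    have hl2 : Real.log (Real.sqrt p) ≤ Real.sqrt p - 1 := Real.log_le_sub_one_of_pos hs0
    have hl3 : Real.log p ≤ 2 * Real.sqrt p := by linarith
    have h5 : Real.sqrt p ≤ 8 * N := by
      have h6 : (p:ℝ) / 4 ≤ 2 * Real.sqrt p * N := h1.trans (by gcongr)
      have h7 : Real.sqrt p * Real.sqrt p ≤ (8 * N) * Real.sqrt p := by
        rw [hsq]; linarith
      exact le_of_mul_le_mul_right h7 hs0
    have h8 : Real.log (Real.sqrt p) ≤ Real.log (8 * N) := Real.log_le_log hs0 h5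
    have h9 : Real.log (8 * (N:ℝ)) = 3 * Real.log 2 + Real.log N := by
      rw [Real.log_mul (by norm_num) (by positivity),
        show (8:ℝ) = 2^3 by norm_num, Real.log_pow]
      norm_num
    have h10 : Real.log p ≤ 8 * Real.log N := by linarith
    have h11 : (p:ℝ) / 4 ≤ 8 * Real.log N * N := h1.trans (by gcongr)
    linarith
  · have h3 : (p:ℝ) ≤ 3 := by exact_mod_cast (by omega : p ≤ 3)
    have h12 : (32:ℝ) * 2 * 0.6 ≤ 32 * N * Real.log N := by
      have : (0.6:ℝ) ≤ Real.log N := by linarith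
      gcongr
    linarith

end Pool.Agent.H87.SR
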